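import Pool.Agent.Helper91.PL.Defs2
import Pool.Agent.Helper84.PL.A1
import Pool.Agent.Helper28.PL.A2
import Pool.Agent.Helper42.PL.A5
import Pool.Agent.Helper8.PL.A4
import Pool.Agent.Helper77.PL.A6

/-!
# MP_bae8ce_ag : module A7 (the main induction)
-/

set_option autoImplicit false
set_option linter.unusedSectionVars false

open Finset

namespace PL

noncomputable section

universe u

section

variable {F : Type u} [Field F] {G : Type u} [Field G]

theorem a7_mem_NN {q : ℕ} {α : ZP F} :
    α ∈ NN q F ↔ ∀ φ : MultilinearMap ℚ (fun _ : Fin (q + 2) => V F) ℚ,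
      Finsupp.linearCombination ℚ (Sy φ) α = 0 := by
  simp only [NN, Submodule.mem_iInf, LinearMap.mem_ker]

theorem a7_Sy_zero {q : ℕ} (φ : MultilinearMap ℚ (fun _ : Fin (q + 2) => V F) ℚ) {x : P1 F}
    (h : cl x = 0) : Sy φ x = 0 := by
  unfold Sy
  have h1 : φ (Fin.cons (cl1 x) fun _ => cl x) = 0 := by
    apply φ.map_coord_zero (Fin.succ 0)
    rw [Fin.cons_succ]
    exact h
  have h2 : φ (Fin.cons (cl x) (Fin.cons (cl1 x) fun _ => cl x)) = 0 := by
    apply φ.map_coord_zero 0
    rw [Fin.cons_zero]
    exact h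
  rw [h1, h2, sub_zero]

theorem a7_single_mem {q : ℕ} {x : P1 F} (h : cl x = 0) (r : ℚ) :
    (Finsupp.single x r : ZP F) ∈ NN q F := by
  rw [a7_mem_NN]
  intro φ
  rw [Finsupp.linearCombination_single, a7_Sy_zero φ h, smul_zero]

theorem a7_cl_zero : cl (some (0 : F)) = 0 := lg_zero

theorem a7_cl_none : cl (none : P1 F) = 0 := rfl

theorem a7_Rgen_le (q : ℕ) : Rgen F (NN q (RatFunc F)) ≤ NN q F := by
  refine sup_le (Submodule.span_le.2 ?_) (Submodule.map_le_iff_le_comap.2 ?_)
  · rintro x (rfl | rfl)
    · exact a7_single_mem a7_cl_zero 1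
    · exact a7_single_mem a7_cl_none 1
  · intro α hα
    rw [Submodule.mem_comap, LinearMap.sub_apply]
    exact Submodule.sub_mem _ (NN_spec q 0 hα) (NN_spec q 1 hα)

theorem a7_zero_mem (A : Submodule ℚ (ZP (RatFunc F))) :
    (Finsupp.single (some 0) 1 : ZP F) ∈ Rgen F A :=
  Submodule.mem_sup_left (Submodule.subset_span (Or.inl rfl))

theorem a7_none_mem (A : Submodule ℚ (ZP (RatFunc F))) :
    (Finsupp.single none 1 : ZP F) ∈ Rgen F A :=
  Submodule.mem_sup_left (Submodule.subset_span (Or.inr rfl))

theorem a7_sub_mem {A : Submodule ℚ (ZP (RatFunc F))} {α : ZP (RatFunc F)} (h : α ∈ A) :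
    spec 0 α - spec 1 α ∈ Rgen F A :=
  Submodule.mem_sup_right ⟨α, h, rfl⟩

theorem a7_val_pow {a : F} {f : RatFunc F} {x : F} (hf : val a (some f) = some x) (n : ℕ) :
    val a (some (f ^ n)) = some (x ^ n) := by
  induction n with
  | zero =>
    rw [pow_zero, pow_zero]
    have h := val_C a (1 : F)
    rwa [map_one] at h
  | succ n ih =>
    rw [pow_succ, pow_succ]
    exact val_mul ih hf

theorem a7_spec_single (a : F) (x : P1 (RatFunc F)) (r : ℚ) :
    spec a (Finsupp.single x r) = Finsupp.single (val a x) r := by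
  simp only [spec, Finsupp.lmapDomain_apply, Finsupp.mapDomain_single]

/-- The base case of the tower. -/
theorem a7_base (p : ℕ) [Fact p.Prime] (q : ℕ) [CharP F p]
    (h : ∀ x : F, ∃ m, 0 < m ∧ x ^ p ^ m = x) : (⊤ : Submodule ℚ (ZP F)) ≤
      Rgen F (NN q (RatFunc F)) := by
  have : CharP (RatFunc F) p := charP_of_injective_algebraMap (RatFunc.C_injective (K := F)) p
  have key : ∀ x : P1 F, (Finsupp.single x 1 : ZP F) ∈ Rgen F (NN q (RatFunc F)) := by
    intro x
    rcases x with _ | x
    · exact a7_none_mem _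
    · obtain ⟨m, hm, hx⟩ := h x
      set f : RatFunc F := RatFunc.C x * RatFunc.X with hf
      have h0 : val 0 (some f) = some 0 := by
        have := val_mul (val_C 0 x) (val_X (0 : F))
        rwa [mul_zero] at this
      have h1 : val 1 (some f) = some x := by
        have := val_mul (val_C 1 x) (val_X (1 : F))
        rwa [mul_one] at this
      have hQ : p ^ m ≠ 0 := pow_ne_zero _ (Fact.out : p.Prime).ne_zero
      have h0' := a7_val_pow h0 (p ^ m)
      have h1' := a7_val_pow h1 (p ^ m)
      rw [zero_pow hQ] at h0'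
      rw [hx] at h1'
      have h2 := a7_sub_mem (frob_NN p q m f)
      set c : ℚ := ((p : ℚ) ^ m) ^ (q + 2) with hc
      have hc1 : 1 < c := by
        have hp : (1 : ℚ) < p := by exact_mod_cast (Fact.out : p.Prime).one_lt
        have : (1 : ℚ) < (p : ℚ) ^ m := one_lt_pow₀ hp hm.ne'
        exact one_lt_pow₀ this (by omega)
      simp only [map_sub, map_smul, a7_spec_single, h0, h1, h0', h1'] at h2
      have h3 : (Finsupp.single (some x) 1 : ZP F) = Finsupp.single (some 0) 1 -
          (1 - c)⁻¹ • (Finsupp.single (some 0) 1 - c • Finsupp.single (some 0) 1 -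
            (Finsupp.single (some x) 1 - c • Finsupp.single (some x) 1)) := by
        have h4 : (1 - c) ≠ 0 := by linarith
        have h5 : (Finsupp.single (some 0) 1 - c • Finsupp.single (some 0) 1 -
            (Finsupp.single (some x) 1 - c • Finsupp.single (some x) 1) : ZP F) =
            (1 - c) • (Finsupp.single (some 0) 1 - Finsupp.single (some x) 1) := by
          module
        rw [h5, smul_smul, inv_mul_cancel₀ h4, one_smul]
        abel
      rw [h3]
      exact Submodule.sub_mem _ (a7_zero_mem _) (Submodule.smul_mem _ _ h2)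
  intro α _
  induction α using Finsupp.induction_linear with
  | zero => exact Submodule.zero_mem _
  | add f g hf hg => exact Submodule.add_mem _ (hf trivial) (hg trivial)
  | single x r =>
    have : (Finsupp.single x r : ZP F) = r • Finsupp.single x 1 := by
      rw [Finsupp.smul_single, smul_eq_mul, mul_one]
    rw [this]
    exact Submodule.smul_mem _ _ (key x)

theorem a7_mapP_single (σ : F →+* G) (x : P1 F) (r : ℚ) :
    mapP σ (Finsupp.single x r) = Finsupp.single (Option.map σ x) r := by
  simp only [mapP, Finsupp.lmapDomain_apply, Finsupp.mapDomain_single]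

/-- Functoriality of the generators. -/
theorem a7_map_Rgen (q : ℕ) (σ : F →+* G) {α : ZP F} (h : α ∈ Rgen F (NN q (RatFunc F))) :
    mapP σ α ∈ Rgen G (NN q (RatFunc G)) := by
  obtain ⟨τ, h0, h1⟩ := exists_base σ
  have h2 : Rgen F (NN q (RatFunc F)) ≤ (Rgen G (NN q (RatFunc G))).comap (mapP σ) := by
    refine sup_le (Submodule.span_le.2 ?_) (Submodule.map_le_iff_le_comap.2 ?_)
    · rintro x (rfl | rfl)
      · rw [SetLike.mem_coe, Submodule.mem_comap, a7_mapP_single, Option.map_some, map_zero]
        exact a7_zero_mem _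
      · rw [SetLike.mem_coe, Submodule.mem_comap, a7_mapP_single, Option.map_none]
        exact a7_none_mem _
    · intro γ hγ
      rw [Submodule.mem_comap, Submodule.mem_comap, LinearMap.sub_apply]
      have h3 := a7_sub_mem (NN_map q τ hγ)
      have h4 : ∀ (a : F) (b : G), (∀ f, val b (some (τ f)) =
          Option.map σ (val a (some f))) → spec b (mapP τ γ) = mapP σ (spec a γ) := by
        intro a b hab
        have h5 : (spec b ∘ₗ mapP τ : ZP (RatFunc F) →ₗ[ℚ] ZP G) = mapP σ ∘ₗ spec a := by
          apply Finsupp.lhom_ext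
          intro x r
          rw [LinearMap.comp_apply, LinearMap.comp_apply, a7_mapP_single, a7_spec_single,
            a7_spec_single, a7_mapP_single]
          congr 1
          rcases x with _ | f
          · rfl
          · exact hab f
        exact LinearMap.congr_fun h5 γ
      rw [map_sub, ← h4 0 0 h0, ← h4 1 1 h1]
      exact h3
  exact h2 h

/-- The step of the tower. -/
theorem a7_step (q : ℕ) (ih : NN q F ≤ Rgen F (NN q (RatFunc F))) :
    NN q (RatFunc F) ≤ Rgen (RatFunc F) (NN q (RatFunc (RatFunc F))) := by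
  intro α hα
  obtain ⟨σ, h1, h0⟩ := exists_scale F
  have h2 := a7_sub_mem (NN_map q σ hα)
  have h3 : spec 1 (mapP σ α) = α := by
    have h5 : (spec 1 ∘ₗ mapP σ : ZP (RatFunc F) →ₗ[ℚ] ZP (RatFunc F)) = LinearMap.id := by
      apply Finsupp.lhom_ext
      intro x r
      rw [LinearMap.comp_apply, LinearMap.id_apply, a7_mapP_single, a7_spec_single]
      congr 1
      rcases x with _ | f
      · rfl
      · exact h1 f
    exact LinearMap.congr_fun h5 α
  have h4 : spec 0 (mapP σ α) = mapP (RatFunc.C : F →+* RatFunc F) (spec 0 α) := by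
    have h5 : (spec 0 ∘ₗ mapP σ : ZP (RatFunc F) →ₗ[ℚ] ZP (RatFunc F)) =
        mapP (RatFunc.C : F →+* RatFunc F) ∘ₗ spec 0 := by
      apply Finsupp.lhom_ext
      intro x r
      rw [LinearMap.comp_apply, LinearMap.comp_apply, a7_mapP_single, a7_spec_single,
        a7_spec_single, a7_mapP_single]
      congr 1
      rcases x with _ | f
      · rfl
      · exact h0 f
    exact LinearMap.congr_fun h5 α
  rw [h3, h4] at h2
  have h6 := a7_map_Rgen q (RatFunc.C : F →+* RatFunc F) (ih (NN_spec q 0 hα))
  have h7 := Submodule.sub_mem _ h6 h2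
  rwa [sub_sub_cancel] at h7

end

theorem a7_tower (p : ℕ) [Fact p.Prime] (q : ℕ) (F : Type u) (inst : Field F)
    (h : Tow p F inst) : NN q F = Rgen F (NN q (RatFunc F)) := by
  refine le_antisymm ?_ (a7_Rgen_le q)
  induction h with
  | base F inst hp h => exact le_top.trans (a7_base p q h)
  | step F inst h ih => exact a7_step q ih

/-! ## A7 : the main induction -/

theorem R_eq_NN (p : ℕ) [Fact p.Prime] (q : ℕ) (F : Type u) (inst : Field F)
    (h : Tow p F inst) : R (q + 2) F = NN q F := by
  induction q generalizing F inst with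
  | zero =>
    rw [a7_tower p 0 F inst h, ← ker_δ2]
    rfl
  | succ q ih =>
    rw [a7_tower p (q + 1) F inst h, ← ker_δ, ← ih (RatFunc F) _ (Tow.step F inst h)]
    rfl

end

end PL
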